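import Pool.Agent.Y262.EX.Stm

/-!
# The action on the strip: assembly
-/

set_option autoImplicit false

open Set Filter Topology MeasureTheory
open scoped ContDiff ComplexConjugate Real

noncomputable section

namespace Pool.Agent.Y925.EX

open Pool.Agent.Y262.EG Pool.Agent.Y262.EX

theorem Om_open : IsOpen Om :=
  (isOpen_lt continuous_const Complex.continuous_re).inter
    (isOpen_lt Complex.continuous_re continuous_const)

theorem Om_convex : Convex ℝ Om := by
  have h1 : Convex ℝ {z : ℂ | -(7 / 2 * L0) < z.re} :=
    convex_halfSpace_gt (f := Complex.re) ⟨fun a b => Complex.add_re a b, fun c a => by simp⟩ _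
  have h2 : Convex ℝ {z : ℂ | z.re < 9 / 2 * L0} :=
    convex_halfSpace_lt (f := Complex.re) ⟨fun a b => Complex.add_re a b, fun c a => by simp⟩ _
  exact h1.inter h2

theorem actE : StW → StAc → StFree → StDisc → StCpt → StActE := by
  intro hW hAc hF hD hC
  exact
    { opn := Om_open
      conn := Om_convex.isPreconnected
      ne := ⟨((L0 / 2 : ℝ) : ℂ), by
        have h := hW.1
        refine ⟨?_, ?_⟩
        · rw [Complex.ofReal_re]
          linarith
        · rw [Complex.ofReal_re]
          linarith⟩
      maps := fun γ z hz => (hAc.1 γ z hz).1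
      one := hAc.2
      mul := fun γ γ' z hz => (hAc.1 γ' z hz).2.2.1 γ
      hol := fun γ z hz => (hAc.1 γ z hz).2.2.2.1.differentiableWithinAt
      free := hF
      fin := hD
      cpt := hC }

end Pool.Agent.Y925.EX
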