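import Pool.Agent.Y262.EX.Stm

/-!
# Cocompactness of the action on the strip
-/

set_option autoImplicit false

open Set Filter Topology MeasureTheory
open scoped ContDiff ComplexConjugate Real

noncomputable section

namespace Pool.Agent.Y925.EX

open Pool.Agent.Y262.EG Pool.Agent.Y262.EX

/-- the values of bounded matrices at `i` -/
theorem bnd (R a b c d : ℝ) (h : a * d - b * c = 1) (ha : |a| ≤ R) (hb : |b| ≤ R) (hc : |c| ≤ R)
    (hd : |d| ≤ R) : 0 < c ^ 2 + d ^ 2 ∧ 1 / (2 * R ^ 2) ≤ 1 / (c ^ 2 + d ^ 2) ∧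
    1 / (c ^ 2 + d ^ 2) ≤ 2 * R ^ 2 := by
  have hR : 0 ≤ R := (abs_nonneg a).trans ha
  have h2 : ∀ x : ℝ, |x| ≤ R → x ^ 2 ≤ R ^ 2 := fun x hx => by
    rw [← sq_abs]
    exact pow_le_pow_left₀ (abs_nonneg x) hx 2
  have ha2 := h2 a ha
  have hb2 := h2 b hb
  have hc2 := h2 c hc
  have hd2 := h2 d hd
  have h3 : 1 ≤ (a ^ 2 + b ^ 2) * (c ^ 2 + d ^ 2) := by nlinarith [sq_nonneg (a * c + b * d)]
  have h4 : 0 < c ^ 2 + d ^ 2 := by
    by_contra h5
    have h6 : c ^ 2 + d ^ 2 = 0 := le_antisymm (not_lt.1 h5) (by positivity)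
    rw [h6] at h3
    linarith
  have h5 : (a ^ 2 + b ^ 2) * (c ^ 2 + d ^ 2) ≤ 2 * R ^ 2 * (c ^ 2 + d ^ 2) :=
    mul_le_mul_of_nonneg_right (by linarith) h4.le
  refine ⟨h4, one_div_le_one_div_of_le h4 (by linarith), ?_⟩
  rw [div_le_iff₀ h4]
  linarith

theorem cptT : StMob → StW → StAc → StBdd → StCpt := by
  intro hM hW hAc hB
  obtain ⟨R, hR⟩ := hB
  obtain ⟨-, -, hW1, hW2, -, hWi, -, -⟩ := hW
  let B : ℝ := 2 * R * (2 * R) * 2
  let K' : Set ℂ := {w : ℂ | 1 / (2 * R ^ 2) ≤ w.im ∧ ‖w‖ ≤ B}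
  have hRpos : 0 < R := by
    obtain ⟨γ, hγ⟩ := hR 1 (by simp)
    by_contra hcon
    have h0 : ∀ i j, (qm γ.a γ.b γ.c γ.d * (1 : Matrix (Fin 2) (Fin 2) ℝ)) i j = 0 := by
      intro i j
      have := hγ i j
      have h1 := abs_nonneg ((qm γ.a γ.b γ.c γ.d * (1 : Matrix (Fin 2) (Fin 2) ℝ)) i j)
      exact abs_eq_zero.1 (le_antisymm (this.trans (not_lt.1 hcon)) h1)
    have hdet := hM.2.2 γ
    rw [mul_one] at h0
    have a1 : m11 γ = 0 := h0 0 0
    have a2 : m12 γ = 0 := h0 0 1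
    rw [a1, a2] at hdet
    norm_num at hdet
  have hK'pos : ∀ w ∈ K', 0 < w.im := fun w hw => lt_of_lt_of_le (by positivity) hw.1
  have hK'c : IsCompact K' := by
    refine Metric.isCompact_of_isClosed_isBounded ?_ ?_
    · exact (isClosed_le continuous_const Complex.continuous_im).inter
        (isClosed_le continuous_norm continuous_const)
    · refine (Metric.isBounded_closedBall (x := (0 : ℂ)) (r := B)).subset fun w hw => ?_
      rw [mem_closedBall_zero_iff]
      exact hw.2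
  refine ⟨Wi '' K', ?_, ?_, ?_⟩
  · refine hK'c.image_of_continuousOn fun w hw => ?_
    exact (hWi w (hK'pos w hw)).continuousAt.continuousWithinAt
  · rintro _ ⟨w, hw, rfl⟩
    exact (hW2 w (hK'pos w hw)).1
  · intro z hz
    obtain ⟨hv, -⟩ := hW1 z hz
    set w := W z with hw
    set u := w.re
    set v := w.im with hvdef
    have hs : 0 < Real.sqrt v := Real.sqrt_pos.2 hv
    have hss : Real.sqrt v * Real.sqrt v = v := Real.mul_self_sqrt hv.le
    let g : Matrix (Fin 2) (Fin 2) ℝ := !![Real.sqrt v, u / Real.sqrt v; 0, 1 / Real.sqrt v]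
    have hg : g.det = 1 := by
      rw [Matrix.det_fin_two_of]
      field_simp
      ring
    obtain ⟨γ, hγ⟩ := hR g hg
    refine ⟨γ, mob γ w, ?_, rfl⟩
    obtain ⟨hden, him, -, -, -⟩ := hM.1 γ w hv
    have hdet := hM.2.2 γ
    -- the entries of `h = γ g`
    have e11 : (qm γ.a γ.b γ.c γ.d * g) 0 0 = m11 γ * Real.sqrt v := by
      simp [qm, g, Matrix.mul_apply, Fin.sum_univ_two, m11]
    have e12 : (qm γ.a γ.b γ.c γ.d * g) 0 1 = (m11 γ * u + m12 γ) / Real.sqrt v := by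
      simp [qm, g, Matrix.mul_apply, Fin.sum_univ_two, m11, m12]
      field_simp
    have e21 : (qm γ.a γ.b γ.c γ.d * g) 1 0 = m21 γ * Real.sqrt v := by
      simp [qm, g, Matrix.mul_apply, Fin.sum_univ_two, m21]
    have e22 : (qm γ.a γ.b γ.c γ.d * g) 1 1 = (m21 γ * u + m22 γ) / Real.sqrt v := by
      simp [qm, g, Matrix.mul_apply, Fin.sum_univ_two, m21, m22]
      field_simp
    have b11 := hγ 0 0
    have b12 := hγ 0 1
    have b21 := hγ 1 0
    have b22 := hγ 1 1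
    rw [e11] at b11
    rw [e12] at b12
    rw [e21] at b21
    rw [e22] at b22
    have hd1 : m11 γ * Real.sqrt v * ((m21 γ * u + m22 γ) / Real.sqrt v) -
        (m11 γ * u + m12 γ) / Real.sqrt v * (m21 γ * Real.sqrt v) = 1 := by
      field_simp
      linear_combination hdet
    obtain ⟨c1, c2, c3⟩ := bnd R _ _ _ _ hd1 b11 b12 b21 b22
    have hns : Complex.normSq ((m21 γ : ℂ) * w + m22 γ) =
        v * ((m21 γ * Real.sqrt v) ^ 2 + ((m21 γ * u + m22 γ) / Real.sqrt v) ^ 2) := by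
      rw [Complex.normSq_apply]
      simp only [Complex.add_re, Complex.mul_re, Complex.ofReal_re, Complex.ofReal_im, zero_mul,
        sub_zero, Complex.add_im, Complex.mul_im, add_zero]
      rw [div_pow, Real.sq_sqrt hv.le, mul_pow, Real.sq_sqrt hv.le]
      field_simp
      ring
    have him' : (mob γ w).im =
        1 / ((m21 γ * Real.sqrt v) ^ 2 + ((m21 γ * u + m22 γ) / Real.sqrt v) ^ 2) := by
      rw [him, hns, ← hvdef, div_mul_eq_div_div, div_self hv.ne']
    refine ⟨by rw [him']; exact c2, ?_⟩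
    -- the norm
    have hnum : ‖(m11 γ : ℂ) * w + m12 γ‖ ^ 2 =
        v * ((m11 γ * Real.sqrt v) ^ 2 + ((m11 γ * u + m12 γ) / Real.sqrt v) ^ 2) := by
      rw [← Complex.normSq_eq_norm_sq, Complex.normSq_apply]
      simp only [Complex.add_re, Complex.mul_re, Complex.ofReal_re, Complex.ofReal_im, zero_mul,
        sub_zero, Complex.add_im, Complex.mul_im, add_zero]
      rw [div_pow, Real.sq_sqrt hv.le, mul_pow, Real.sq_sqrt hv.le]
      field_simp
      ring
    have hden2 : ‖(m21 γ : ℂ) * w + m22 γ‖ ^ 2 =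
        v * ((m21 γ * Real.sqrt v) ^ 2 + ((m21 γ * u + m22 γ) / Real.sqrt v) ^ 2) := by
      rw [← Complex.normSq_eq_norm_sq, hns]
    have h2 : ∀ x : ℝ, |x| ≤ R → x ^ 2 ≤ R ^ 2 := fun x hx => by
      rw [← sq_abs]
      exact pow_le_pow_left₀ (abs_nonneg x) hx 2
    have k1 := h2 _ b11
    have k2 := h2 _ b12
    set S := (m21 γ * Real.sqrt v) ^ 2 + ((m21 γ * u + m22 γ) / Real.sqrt v) ^ 2 with hS
    have hsq : ‖mob γ w‖ ^ 2 ≤ B ^ 2 := by
      have e1 : mob γ w = ((m11 γ : ℂ) * w + m12 γ) / ((m21 γ : ℂ) * w + m22 γ) := rfl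
      rw [e1, norm_div, div_pow, hnum, hden2, mul_div_mul_left _ _ hv.ne']
      have h5 : ((m11 γ * Real.sqrt v) ^ 2 + ((m11 γ * u + m12 γ) / Real.sqrt v) ^ 2) / S =
          ((m11 γ * Real.sqrt v) ^ 2 + ((m11 γ * u + m12 γ) / Real.sqrt v) ^ 2) * (1 / S) := by
        ring
      rw [h5]
      have h6 : ((m11 γ * Real.sqrt v) ^ 2 + ((m11 γ * u + m12 γ) / Real.sqrt v) ^ 2) * (1 / S) ≤
          (2 * R ^ 2) * (2 * R ^ 2) := by
        apply mul_le_mul (by linarith) c3 (by positivity) (by positivity)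
      refine h6.trans ?_
      have h7 : B ^ 2 = 64 * R ^ 4 := by
        show (2 * R * (2 * R) * 2) ^ 2 = _
        ring
      rw [h7]
      nlinarith [pow_pos hRpos 4]
    have hB : 0 ≤ B := by positivity
    exact (sq_le_sq₀ (norm_nonneg _) hB).1 hsq

end Pool.Agent.Y925.EX
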